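import Pool.Agent.H15.TG.Targets

/-!
MP_51eb24_ag, board tga_modules, row DIV.
-/

set_option autoImplicit false

namespace Pool.Agent.H17.TG

open MvPolynomial Pool.Agent.H2.ST Pool.Agent.H15.TG

section

variable {k : Type} [Field k] {m d : ℕ}

theorem kp_comm {π : Fin (d + 1) → Pol k m} (h : ∀ i j, br (π i) (π j) = 0) {p q : Pol k m}
    (hp : p ∈ Kp π) (hq : q ∈ Kp π) : br p q = 0 := by
  have h1 : ∀ i, br (π i) q = 0 := by
    intro i
    induction hq using Algebra.adjoin_induction with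
    | mem x hx =>
      obtain ⟨j, rfl⟩ := hx
      exact h i j
    | algebraMap r => exact br_C _ r
    | add x y _ _ hx hy => rw [br_add, hx, hy, add_zero]
    | mul x y _ _ hx hy => rw [br_mul, hx, hy, mul_zero, mul_zero, add_zero]
  induction hp using Algebra.adjoin_induction with
  | mem x hx =>
    obtain ⟨j, rfl⟩ := hx
    exact h1 j
  | algebraMap r => exact C_br _ r
  | add x y _ _ hx hy => rw [add_br, hx, hy, add_zero]
  | mul x y _ _ hx hy => rw [mul_br, hx, hy, mul_zero, mul_zero, add_zero]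

theorem pi_mem_kp (π : Fin (d + 1) → Pol k m) (i : Fin (d + 1)) : π i ∈ Kp π :=
  Algebra.subset_adjoin ⟨i, rfl⟩

theorem C_mem_kp (π : Fin (d + 1) → Pol k m) (c : k) : C c ∈ Kp π :=
  (Kp π).algebraMap_mem c

theorem f_mem_kp {W : (Fin d → ℤ) → Submodule k (Pol k m)} {K : Subalgebra k (Pol k m)}
    {f : Pol k m} {π : Fin (d + 1) → Pol k m} {ψ : Fin (d + 1) → Fin d → ℤ}
    {a : Fin (d + 1) → ℕ} {c0 : k} (h : MnP W K f (d + 1) π ψ a c0) : f ∈ Kp π := by
  rw [h.fe]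
  exact (Kp π).mul_mem (C_mem_kp π c0)
    (Subalgebra.prod_mem _ fun i _ => (Kp π).pow_mem (pi_mem_kp π i) _)

end

theorem pf_DIV (hPPC : T_PPC) (hPFC : T_PFC) (hPHR : T_PHR) (hFAC : T_FAC) : T_DIV := by
  intro k _ _ _ m d W K H f π ψ a c0 h χ θ s p s1 hV hp hpW hs
  obtain ⟨hsK, hsW, hsb, hsf⟩ := hV
  have hcomm := hPPC k m d W K H f π ψ a c0 h
  have hs0 : s ≠ 0 := by
    rintro rfl
    exact hsf (br_zero f)
  have hps : p * s1 ≠ 0 := hs ▸ hs0
  have hp0 : p ≠ 0 := left_ne_zero_of_mul hps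
  have hs1K : s1 ∈ K := (h.fc p s1 hps (hs ▸ hsK)).2
  have hbp : ∀ i, br (π i) p = 0 := fun i => kp_comm hcomm (pi_mem_kp π i) hp
  have hs1W : s1 ∈ W (χ - θ) := by
    obtain ⟨b, c, hb, hc, hbc⟩ := hFAC k (Pol k m) (Fin d → ℤ) W h.toGd.toFd.toDat.toPGr.toGr χ p s1
      (hs ▸ hsW) hps
    have e1 : b = θ := wt_uniq h.toGd.toFd.toDat.toPGr.toGr hb hpW hp0
    have e2 : c = χ - θ := by
      rw [← hbc, e1]
      abel
    rw [← e2]
    exact hc
  have hbs : ∀ i, br (π i) s = p * br (π i) s1 := by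
    intro i
    rw [hs, br_mul, hbp i, mul_zero, add_zero]
  refine ⟨⟨hs1K, hs1W, ?_, ?_⟩, ?_⟩
  · intro i
    by_cases h0 : br (π i) s1 = 0
    · rw [h0]
      exact (Kp π).zero_mem
    · exact (hPFC k m d W K H f π ψ a c0 h p (br (π i) s1) (mul_ne_zero hp0 h0)
        (hbs i ▸ hsb i)).2
  · intro h0
    apply hsf
    rw [hs, br_mul, h0, kp_comm hcomm (f_mem_kp h.toMnP) hp, mul_zero, mul_zero, add_zero]
  · rw [hs]
    exact (hPHR k m d W K H f π ψ a c0 h).2.2.1 p s1 hbp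

end Pool.Agent.H17.TG
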