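import Pool.Agent.H17.TG.DIV

/-!
MP_51eb24_ag, board tga_modules, row SHF.
-/

set_option autoImplicit false

namespace Pool.Agent.H17.TG

open MvPolynomial Pool.Agent.H2.ST Pool.Agent.H15.TG

section

variable {k : Type} [Field k] {m d : ℕ}

theorem kp_aeval {π : Fin (d + 1) → Pol k m} {p : Pol k m} (hp : p ∈ Kp π) :
    ∃ Q : MvPolynomial (Fin (d + 1)) k, aeval π Q = p := by
  have h : p ∈ (aeval π : MvPolynomial (Fin (d + 1)) k →ₐ[k] Pol k m).range := by
    rw [← Algebra.adjoin_range_eq_range_aeval]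
    exact hp
  exact h

theorem aeval_mem_kp (π : Fin (d + 1) → Pol k m) (Q : MvPolynomial (Fin (d + 1)) k) :
    aeval π Q ∈ Kp π := by
  have h : aeval π Q ∈ (aeval π : MvPolynomial (Fin (d + 1)) k →ₐ[k] Pol k m).range := ⟨Q, rfl⟩
  rw [← Algebra.adjoin_range_eq_range_aeval] at h
  exact h

/-- quotient of homogeneous elements -/
theorem quot_mem {W : (Fin d → ℤ) → Submodule k (Pol k m)} (hW : Gr W) {b c : Fin d → ℤ}
    {g q : Pol k m} (hg : g ∈ W b) (hg0 : g ≠ 0) (hq : q * g ∈ W (c + b)) : q ∈ W c := by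
  apply mem_of_cmp hW
  intro b' hb'
  have h1 := cmp_mul_of_mem hW hg q b'
  rw [cmp_of_mem hW hq, Finsupp.single_apply, if_neg (fun h => hb' (add_right_cancel h).symm)] at h1
  exact (mul_eq_zero.1 h1.symm).resolve_right hg0

/-- the polynomial identity -/
def PId (a : Fin (d + 1) → ℕ) (Q : Fin (d + 1) → MvPolynomial (Fin (d + 1)) k) (c' : k)
    (b : Fin (d + 1) → ℕ) : Prop :=
  ∑ i, C ((a i : ℕ) : k) * (∏ j ∈ Finset.univ.erase i, X j) * Q i =
    C c' * ∏ i, (X i : MvPolynomial (Fin (d + 1)) k) ^ b i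

theorem pid_one {a : Fin (d + 1) → ℕ} {Q : Fin (d + 1) → MvPolynomial (Fin (d + 1)) k} {c' : k}
    {b : Fin (d + 1) → ℕ} (h : PId a Q c' b) (hc : c' ≠ 0) (i j : Fin (d + 1)) (hij : i ≠ j) :
    b i ≠ 0 ∨ b j ≠ 0 := by
  by_contra hcon
  push Not at hcon
  obtain ⟨hi, hj⟩ := hcon
  have h1 := congrArg (eval fun t : Fin (d + 1) => if t = i ∨ t = j then (0 : k) else 1) h
  rw [map_sum, map_mul, map_prod, eval_C] at h1
  rw [Finset.sum_eq_zero, Finset.prod_eq_one, mul_one] at h1
  · exact hc h1.symm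
  · intro t _
    rw [map_pow, eval_X]
    by_cases ht : t = i ∨ t = j
    · have : b t = 0 := by
        rcases ht with rfl | rfl
        · exact hi
        · exact hj
      rw [this, pow_zero]
    · rw [if_neg ht, one_pow]
  · intro t _
    rw [map_mul, map_mul, map_prod]
    have : ∏ x ∈ Finset.univ.erase t, (eval fun t : Fin (d + 1) => if t = i ∨ t = j then (0 : k)
        else 1) (X x) = 0 := by
      by_cases ht : t = i
      · refine Finset.prod_eq_zero (i := j) ?_ ?_
        · rw [Finset.mem_erase]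
          exact ⟨by rw [ht]; exact hij.symm, Finset.mem_univ _⟩
        · rw [eval_X, if_pos (Or.inr rfl)]
      · refine Finset.prod_eq_zero (i := i) ?_ ?_
        · rw [Finset.mem_erase]
          exact ⟨fun h => ht h.symm, Finset.mem_univ _⟩
        · rw [eval_X, if_pos (Or.inl rfl)]
    rw [this, mul_zero, zero_mul]

theorem pid_dvd [CharZero k] {a : Fin (d + 1) → ℕ}
    {Q : Fin (d + 1) → MvPolynomial (Fin (d + 1)) k} {c' : k}
    {b : Fin (d + 1) → ℕ} (h : PId a Q c' b) (l : Fin (d + 1)) (ha : 0 < a l)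
    (hb : b l ≠ 0) : ∃ R, Q l = X l * R := by
  have h1 : X l ∣ C ((a l : ℕ) : k) * (∏ j ∈ Finset.univ.erase l, X j) * Q l := by
    have h2 := Finset.add_sum_erase Finset.univ
      (fun i => C ((a i : ℕ) : k) * (∏ j ∈ Finset.univ.erase i, X j) * Q i) (Finset.mem_univ l)
    have h3 : C ((a l : ℕ) : k) * (∏ j ∈ Finset.univ.erase l, X j) * Q l =
        C c' * ∏ i, (X i : MvPolynomial (Fin (d + 1)) k) ^ b i -
          ∑ i ∈ Finset.univ.erase l,
            C ((a i : ℕ) : k) * (∏ j ∈ Finset.univ.erase i, X j) * Q i := by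
      rw [← show _ = C c' * ∏ i, (X i : MvPolynomial (Fin (d + 1)) k) ^ b i from h, ← h2]
      ring
    rw [h3]
    apply dvd_sub
    · apply Dvd.dvd.mul_left
      refine (dvd_pow_self (X l) hb).trans ?_
      exact Finset.dvd_prod_of_mem (fun i => (X i : MvPolynomial (Fin (d + 1)) k) ^ b i)
        (Finset.mem_univ l)
    · apply Finset.dvd_sum
      intro i hi
      rw [Finset.mem_erase] at hi
      apply Dvd.dvd.mul_right
      apply Dvd.dvd.mul_left
      apply Finset.dvd_prod_of_mem (fun j => (X j : MvPolynomial (Fin (d + 1)) k))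
      rw [Finset.mem_erase]
      exact ⟨fun h => hi.1 h.symm, Finset.mem_univ _⟩
  have hX : Prime (X l : MvPolynomial (Fin (d + 1)) k) := X_prime
  rcases hX.dvd_or_dvd h1 with h2 | h2
  · exfalso
    rcases hX.dvd_or_dvd h2 with h3 | h3
    · have h4 : IsUnit (C ((a l : ℕ) : k) : MvPolynomial (Fin (d + 1)) k) := by
        apply IsUnit.map C
        rw [isUnit_iff_ne_zero]
        exact_mod_cast ha.ne'
      exact hX.not_isUnit (isUnit_of_dvd_unit h3 h4)
    · rw [hX.dvd_finsetProd_iff] at h3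
      obtain ⟨j, hj, h4⟩ := h3
      rw [X_dvd_X] at h4
      rw [Finset.mem_erase] at hj
      exact hj.1 h4.symm
  · exact h2

end

theorem pf_SHF (hPPC : T_PPC) (hCPH : T_CPH) (hDUA : T_DUA) (hGBR : T_GBR) (hPHR : T_PHR) :
    T_SHF := by
  intro k _ _ _ m d W K H f π ψ a c0 h χ s c' b hV hc' hphi
  obtain ⟨hsK, hsW, hsb, hsf⟩ := hV
  have hGr := h.toGd.toFd.toDat.toPGr.toGr
  have hcomm := hPPC k m d W K H f π ψ a c0 h
  obtain ⟨-, hadd, -, hker, hwt⟩ := hPHR k m d W K H f π ψ a c0 h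
  have hai : AlgebraicIndependent k π := by
    have h1 := (hCPH k m d W K H f π ψ a c0 h).1.comp Sum.inl Sum.inl_injective
    rwa [Sum.elim_comp_inl] at h1
  have hπ0 : ∀ i, π i ≠ 0 := fun i => (h.pp i).ne_zero
  have hπK : ∀ i, π i ∈ K := fun i => (mem_Cf.1 (h.hp i)).1
  have hKpK : ∀ p ∈ Kp π, p ∈ K := by
    intro p hp
    refine (Algebra.adjoin_le (S := K) ?_) hp
    rintro x ⟨i, rfl⟩
    exact hπK i
  have hfKp : f ∈ Kp π := f_mem_kp h.toMnP
  choose Q hQ using fun l => kp_aeval (hsb l)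
  have hid : PId a Q c' b := by
    apply hai
    rw [map_sum, map_mul, map_prod]
    simp only [map_mul, map_prod, map_pow, aeval_X, algHom_C, MvPolynomial.algebraMap_eq, hQ]
    exact hphi
  refine ⟨fun i j hij => pid_one hid hc' i j hij, ?_, ?_⟩
  · have h1 := hwt χ s hsW
    have h2 : phi π a s ∈ W (∑ i, (b i) • ψ i) := by
      rw [hphi, ← smul_eq_C_mul]
      apply (W _).smul_mem
      apply prod_mem_gr hGr
      intro i _
      exact pow_mem_gr hGr (h.wp i) (b i)
    have h3 : phi π a s ≠ 0 := by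
      rw [hphi]
      refine mul_ne_zero (fun h => hc' (C_eq_zero.1 h)) ?_
      exact Finset.prod_ne_zero_iff.2 fun i _ => pow_ne_zero _ (hπ0 i)
    have h4 := wt_uniq hGr h1 h2 h3
    have h5 : ∑ i, ((b i : ℤ) - 1) • ψ i = ∑ i, (b i) • ψ i - ∑ i, ψ i := by
      rw [← Finset.sum_sub_distrib]
      refine Finset.sum_congr rfl fun i _ => ?_
      rw [sub_smul, one_smul, natCast_zsmul]
    rw [h5, ← h4]
    abel
  · intro j0 hj0
    obtain ⟨bb, hbb1, hbb2⟩ := hDUA k m d W K H f π ψ a c0 h j0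
    have hR : ∀ l, ∃ R, l ≠ j0 → Q l = X l * R := by
      intro l
      by_cases hl : l = j0
      · exact ⟨0, fun h => absurd hl h⟩
      · obtain ⟨R, hR⟩ := pid_dvd hid l (h.ap l) (hj0 l hl)
        exact ⟨R, fun _ => hR⟩
    choose R hR using hR
    let α : Fin (d + 1) → Pol k m := fun l => aeval π (R l)
    have hαK : ∀ l, α l ∈ Kp π := fun l => aeval_mem_kp π (R l)
    have hα : ∀ l, l ≠ j0 → br (π l) s = α l * π l := by
      intro l hl
      rw [← hQ l, hR l hl, map_mul, aeval_X, mul_comm]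
    have hαW : ∀ l, l ≠ j0 → α l ∈ W χ := by
      intro l hl
      refine quot_mem hGr (h.wp l) (hπ0 l) ?_
      rw [← hα l hl, add_comm]
      exact h.pbr _ _ _ _ (h.wp l) hsW
    let G : Fin (d + 1) → Pol k m := fun l => Gb H (bb l)
    have hG := fun l => hGBR k m d W K H f h.toGd.toFd.toDat (bb l)
    have hGf : ∀ l, br f (G l) = 0 := by
      intro l
      rw [br_anti, (hG l).2.2.2 0 f h.fK h.f0]
      simp
    have hGπ : ∀ l i, br (π i) (G l) = -((∑ t, bb l t * ((ψ i t : ℤ) : k)) • π i) := by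
      intro l i
      rw [br_anti, (hG l).2.2.2 (ψ i) (π i) (hπK i) (h.wp i)]
    let S : Pol k m := ∑ l ∈ Finset.univ.erase j0, α l * G l
    have hbS : ∀ i, br (π i) S = ∑ l ∈ Finset.univ.erase j0,
        -((∑ t, bb l t * ((ψ i t : ℤ) : k)) • (α l * π i)) := by
      intro i
      simp only [S]
      rw [br_sum]
      refine Finset.sum_congr rfl fun l _ => ?_
      rw [br_mul, hGπ, kp_comm hcomm (pi_mem_kp π i) (hαK l), mul_zero, add_zero, mul_neg,
        mul_smul_comm]
    have hSK : S ∈ K := by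
      refine Subalgebra.sum_mem _ fun l _ => K.mul_mem (hKpK _ (hαK l)) (hG l).1
    have hSf : br f S = 0 := by
      simp only [S]
      rw [br_sum]
      refine Finset.sum_eq_zero fun l _ => ?_
      rw [br_mul, hGf, kp_comm hcomm hfKp (hαK l), mul_zero, mul_zero, add_zero]
    have hSW : S ∈ W χ := by
      refine (W χ).sum_mem fun l hl => ?_
      have := mul_mem_gr hGr (hαW l (Finset.ne_of_mem_erase hl)) (hG l).2.1
      rwa [add_zero] at this
    have hphi' : phi π a (s + S) = phi π a s := by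
      rw [hadd, hker S (mem_Cf.2 ⟨hSK, hSf⟩), add_zero]
    have hz : ∀ i, i ≠ j0 → br (π i) (s + S) = 0 := by
      intro i hi
      rw [br_add, hbS, hα i hi, Finset.sum_eq_single i]
      · rw [hbb1 i i hi hi, if_pos rfl, one_smul]
        ring
      · intro l hl hli
        rw [hbb1 l i (Finset.ne_of_mem_erase hl) hi, if_neg hli, zero_smul, neg_zero]
      · intro hh
        exact absurd (Finset.mem_erase.2 ⟨hi, Finset.mem_univ _⟩) hh
    have hbj : br (π j0) (s + S) ∈ Kp π := by
      rw [br_add, hbS]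
      refine (Kp π).add_mem (hsb j0) (Subalgebra.sum_mem _ fun l _ => ?_)
      exact (Kp π).neg_mem ((Kp π).smul_mem ((Kp π).mul_mem (hαK l) (pi_mem_kp π j0)) _)
    have haj : ((a j0 : ℕ) : k) ≠ 0 := by
      exact_mod_cast (h.ap j0).ne'
    refine ⟨s + S, c' / ((a j0 : ℕ) : k), fun i => if i = j0 then b i else b i - 1,
      ⟨K.add_mem hsK hSK, (W χ).add_mem hsW hSW, ?_, ?_⟩, hphi', hz, div_ne_zero hc' haj, ?_, ?_, ?_⟩
    · intro i
      by_cases hi : i = j0
      · rw [hi]
        exact hbj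
      · rw [hz i hi]
        exact (Kp π).zero_mem
    · rw [br_add, hSf, add_zero]
      exact hsf
    · have e1 : phi π a (s + S) = C ((a j0 : ℕ) : k) * (∏ j ∈ Finset.univ.erase j0, π j) *
          br (π j0) (s + S) := by
        unfold phi
        rw [Finset.sum_eq_single j0]
        · intro i _ hi
          rw [hz i hi, mul_zero]
        · intro hh
          exact absurd (Finset.mem_univ _) hh
      have e2 : ∏ i, π i ^ b i = (∏ j ∈ Finset.univ.erase j0, π j) *
          ∏ i, π i ^ (if i = j0 then b i else b i - 1) := by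
        rw [← Finset.mul_prod_erase Finset.univ (fun i => π i ^ b i) (Finset.mem_univ j0),
          ← Finset.mul_prod_erase Finset.univ
            (fun i => π i ^ (if i = j0 then b i else b i - 1)) (Finset.mem_univ j0), if_pos rfl,
          mul_left_comm, ← Finset.prod_mul_distrib]
        congr 1
        refine Finset.prod_congr rfl fun i hi => ?_
        have hi' := Finset.ne_of_mem_erase hi
        rw [if_neg hi', ← pow_succ', Nat.sub_add_cancel (Nat.one_le_iff_ne_zero.2 (hj0 i hi'))]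
      rw [hphi', hphi, e2] at e1
      have hP : (∏ j ∈ Finset.univ.erase j0, π j) ≠ 0 :=
        Finset.prod_ne_zero_iff.2 fun i _ => hπ0 i
      have hC : (C ((a j0 : ℕ) : k) : Pol k m) ≠ 0 := fun h => haj (C_eq_zero.1 h)
      apply mul_left_cancel₀ (mul_ne_zero hC hP)
      rw [← e1]
      have e3 : (C c' : Pol k m) = C ((a j0 : ℕ) : k) * C (c' / ((a j0 : ℕ) : k)) := by
        rw [← C_mul]
        congr 1
        field_simp
      rw [e3]
      ring
    · simp only [if_pos]
    · intro i hi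
      simp only [if_neg hi]
      exact Nat.sub_add_cancel (Nat.one_le_iff_ne_zero.2 (hj0 i hi))

end Pool.Agent.H17.TG
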