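import Pool.Agent.H68.TG.Targets

set_option autoImplicit false

namespace Pool.Agent.H17.TG

open List Pool.Agent.H68.TG

theorem h17_iter (h1 : T_DBL) (n : ℕ) : ∀ q, pass^[2 * n] (cfg q) = cfg (nx^[n] q) := by
  induction n with
  | zero => intro q; rfl
  | succ n ih =>
    intro q
    rw [show 2 * (n + 1) = 2 * n + 1 + 1 by ring, Function.iterate_succ_apply,
      Function.iterate_succ_apply, h1, ih, Function.iterate_succ_apply]

theorem h17_ph_nonneg (k : Bool) : ∀ B, 0 ≤ ph k B := by
  intro B
  induction B with
  | nil => exact le_refl _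
  | cons b B ih =>
    rw [ph]
    have : 0 ≤ (if b.1 = k then Real.sqrt b.2 else 0) := by
      split_ifs
      · exact Real.sqrt_nonneg _
      · exact le_refl _
    linarith

theorem h17_flat : ∀ B, ph false B < 1 → ∃ y : ℕ, flat B = replicate y true ∧
    (y : ℝ) ≤ (ph true B) ^ 2 := by
  intro B
  induction B with
  | nil =>
    intro _
    refine ⟨0, rfl, ?_⟩
    rw [ph]
    norm_num
  | cons b B ih =>
    intro hB
    rw [ph] at hB
    have h0 : 0 ≤ (if b.1 = false then Real.sqrt b.2 else 0) := by
      split_ifs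
      · exact Real.sqrt_nonneg _
      · exact le_refl _
    have h1 := h17_ph_nonneg false B
    obtain ⟨y, hy1, hy2⟩ := ih (by linarith)
    obtain ⟨c, u⟩ := b
    cases c
    · simp only [if_true] at hB
      have hu : u = 0 := by
        by_contra hu
        have h2 : (1 : ℝ) ≤ u := by exact_mod_cast Nat.one_le_iff_ne_zero.2 hu
        have h3 : 1 ≤ Real.sqrt u := by
          rw [← Real.sqrt_one]
          exact Real.sqrt_le_sqrt h2
        linarith
      subst hu
      refine ⟨y, ?_, ?_⟩
      · rw [flat, hy1]; rfl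
      · rw [ph]
        simpa using hy2
    · refine ⟨u + y, ?_, ?_⟩
      · rw [flat, hy1]
        exact (replicate_add u y true).symm
      · rw [ph]
        simp only [if_true]
        push_cast
        have h2 := h17_ph_nonneg true B
        have h3 := Real.sqrt_nonneg (u : ℝ)
        have h4 := Real.sq_sqrt (Nat.cast_nonneg (α := ℝ) u)
        nlinarith [mul_nonneg h2 h3]

theorem h17_emb (x y : ℕ) : emb (replicate x false ++ replicate y true) =
    replicate x 0 ++ dd y := by
  induction x with
  | zero =>
    simp only [replicate_zero, nil_append]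
    induction y with
    | zero => rfl
    | succ y ih =>
      rw [replicate_succ, emb, ih, dd, dd, replicate_succ]
      rfl
  | succ x ih =>
    rw [replicate_succ, cons_append, emb, ih, replicate_succ, cons_append]

theorem h17_dd_len (y : ℕ) : (dd y).length = 2 * y := by
  induction y with
  | zero => rfl
  | succ y ih =>
    rw [dd, replicate_succ, flatten_cons, length_append]
    rw [dd] at ih
    rw [ih]
    simp
    ring

theorem h17_two (s : Bool) (x y : ℕ) :
    Two (tape (s, replicate x false ++ replicate y true)) ∧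
    (tape (s, replicate x false ++ replicate y true)).length ≤ x + 2 * y := by
  constructor
  · rw [tape]
    simp only [h17_emb]
    cases s
    · exact ⟨x, y, Or.inl rfl⟩
    · cases x with
      | succ x => exact ⟨x, y, Or.inl rfl⟩
      | zero =>
        cases y with
        | succ y => exact ⟨0, y, Or.inr rfl⟩
        | zero => exact ⟨0, 0, Or.inl rfl⟩
  · rw [tape]
    simp only [h17_emb, length_drop, length_append, length_replicate, h17_dd_len]
    omega

theorem pf_GOO (h1 : T_DBL) (h2 : T_RCH) (h3 : T_MAJ) (h4 : T_SHW) : T_GOO := by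
  intro n q X a b hX hf ht hs
  obtain ⟨h5, h6, h7⟩ := h3 n q X hX
  have hL : (1 : ℝ) ≤ b ^ 2 + 2 * a ^ 2 + 1 := by nlinarith [sq_nonneg a, sq_nonneg b]
  obtain ⟨N, hN⟩ := h2 (cfg q) (2 * n)
  rcases hN with hN | hN
  · obtain ⟨y, hy1, hy2⟩ := h17_flat _ hf
    rw [h17_iter h1] at hN
    have h8 : cfg (nx^[n] q) = ((nx^[n] q).1, replicate (nx^[n] q).2.1 false ++
        replicate y true) := by
      rw [cfg, ← h6, hy1]
    rw [h8] at hN
    obtain ⟨h9, h10⟩ := h17_two (nx^[n] q).1 (nx^[n] q).2.1 y
    refine ⟨N, by rw [hN]; exact h9, ?_⟩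
    rw [hN]
    have h11 : ((tape ((nx^[n] q).1, replicate (nx^[n] q).2.1 false ++
        replicate y true)).length : ℝ) ≤ (nx^[n] q).2.1 + 2 * y := by exact_mod_cast h10
    have h12 : (0 : ℝ) ≤ (drive n q X).2.1 := le_trans (Nat.cast_nonneg _) h7
    have h13 : (drive n q X).2.1 ≤ b ^ 2 := by
      have h14 := Real.sq_sqrt h12
      have h15 := Real.sqrt_nonneg (drive n q X).2.1
      nlinarith
    have h16 : (y : ℝ) ≤ a ^ 2 := by
      have h17 := h17_ph_nonneg true (drive n q X).2.2
      nlinarith
    linarith
  · obtain ⟨k, hk1, hk2⟩ := h4 _ hN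
    refine ⟨k + N, ?_, ?_⟩
    · rw [Function.iterate_add_apply]
      exact hk1
    · rw [Function.iterate_add_apply]
      linarith

end Pool.Agent.H17.TG
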