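import Pool.Agent.H68.TG.Targets

set_option autoImplicit false

namespace Pool.Agent.H17.TG

open List Pool.Agent.H68.TG

theorem pf_RCH (h : T_PAS) : T_RCH := by
  intro q k
  induction k generalizing q with
  | zero => exact ⟨0, Or.inl rfl⟩
  | succ k ih =>
    by_cases hq : 2 ≤ (tape q).length
    · obtain ⟨n1, _, h1, _⟩ := h q hq
      obtain ⟨n2, h2⟩ := ih (pass q)
      refine ⟨n2 + n1, ?_⟩
      rw [Function.iterate_add_apply, h1, Function.iterate_succ_apply]
      exact h2
    · exact ⟨0, Or.inr (by simpa using hq)⟩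

end Pool.Agent.H17.TG
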